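import Pool.Agent.H916_LN2.Aut

/-!
# A group with the composition factor `L_n(2)` and no element of a forbidden order is `L_n(2)`

The proof does not use the classification of the finite simple groups.
-/

set_option autoImplicit false

namespace Pool.Agent.Results.MP_911cfa_al.CompositionFactor

open Pool.Agent.H916_LN2

universe u

/-- The set `M(n)` of forbidden orders: the numbers `p (2^n - 1)` and `p (2^(n-1) - 1)` for the
odd primes `p`, the numbers `2^(c+1) (2^h + 1)` where `h ≥ 1`, `2 h + r = n` and `2^c` is the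
smallest power of two which is at least `r`, and the number `2^(c+1)` where `2^c` is the smallest
power of two which is at least `n`. -/
def forbidden (n : ℕ) : Set ℕ :=
  {m | (∃ p : ℕ, p.Prime ∧ p ≠ 2 ∧ (m = p * (2 ^ n - 1) ∨ m = p * (2 ^ (n - 1) - 1))) ∨
    (∃ h r : ℕ, 1 ≤ h ∧ 2 * h + r = n ∧ m = 2 ^ (Nat.clog 2 r + 1) * (2 ^ h + 1)) ∨
    m = 2 ^ (Nat.clog 2 n + 1)}

/-- The subnormal case. -/
theorem subnormal_top {n : ℕ} (hn : 3 ≤ n) {G : Type u} [Group G] [Finite G]
    (hG : ∀ g : G, orderOf g ∉ forbidden n) (H : Subgroup G) (hH : H.IsSubnormal) :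
    Nonempty (H ≃* Matrix.SpecialLinearGroup (Fin n) (ZMod 2)) → H = ⊤ := by
  induction hH with
  | top => intro _; rfl
  | step H K hle hK hN ih =>
    rintro ⟨ψ⟩
    have h1 : H.subgroupOf K = ⊤ := by
      have hN' : (H.subgroupOf K).Normal := hN
      refine normal_case (G := K) hn (H.subgroupOf K)
        ((Subgroup.subgroupOfEquivOfLe hle).trans ψ) ?_
      intro g
      rw [← Subgroup.orderOf_coe]
      exact hG (g : G)
    have h2 : K = H := le_antisymm (Subgroup.subgroupOf_eq_top.1 h1) hle
    subst h2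
    exact ih ⟨ψ⟩

/-- A finite group is isomorphic to `L_n(2)`, `n ≥ 3`, if and only if it has a composition factor
isomorphic to `L_n(2)` and no element of a forbidden order. -/
theorem result (n : ℕ) (hn : 3 ≤ n) (G : Type u) [Group G] [Finite G] :
    Nonempty (G ≃* Matrix.SpecialLinearGroup (Fin n) (ZMod 2)) ↔
      (∃ (H : Subgroup G) (K : Subgroup H) (_ : K.Normal), H.IsSubnormal ∧
        Nonempty ((H ⧸ K) ≃* Matrix.SpecialLinearGroup (Fin n) (ZMod 2))) ∧
      ∀ g : G, orderOf g ∉ forbidden n := by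
  constructor
  · rintro ⟨e⟩
    refine ⟨⟨⊤, ⊥, inferInstance, Subgroup.IsSubnormal.top, ⟨?_⟩⟩, fun g => ?_⟩
    · exact (QuotientGroup.quotientBot).trans (Subgroup.topEquiv.trans e)
    · have h1 := order_notMem hn ((slgl n) (e g))
      rw [MulEquiv.orderOf_eq, MulEquiv.orderOf_eq] at h1
      exact h1
  · rintro ⟨⟨H, K, hK, hH, ⟨e⟩⟩, hG⟩
    -- the subgroup is a cover without elements of forbidden orders
    let φ : H →* L2 n := ((slgl n).toMonoidHom.comp e.toMonoidHom).comp (QuotientGroup.mk' K)
    have hφ : Function.Surjective φ := by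
      intro l
      obtain ⟨q, hq⟩ := e.surjective ((slgl n).symm l)
      obtain ⟨g, rfl⟩ := QuotientGroup.mk_surjective q
      refine ⟨g, ?_⟩
      change (slgl n) (e (g : H ⧸ K)) = l
      rw [hq, MulEquiv.apply_symm_apply]
    have hinj : Function.Injective φ := by
      refine cover_inj hn φ hφ ?_
      intro g
      rw [← Subgroup.orderOf_coe]
      exact hG (g : G)
    let ψ : H ≃* Matrix.SpecialLinearGroup (Fin n) (ZMod 2) :=
      (MulEquiv.ofBijective φ ⟨hinj, hφ⟩).trans (slgl n).symm
    have htop := subnormal_top hn hG H hH ⟨ψ⟩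
    subst htop
    exact ⟨Subgroup.topEquiv.symm.trans ψ⟩

end Pool.Agent.Results.MP_911cfa_al.CompositionFactor
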